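import Mathlib

/-! # GP-PAR core: the parameters of the class `(M^q, s, s, 1^j)`. -/

namespace Pool.Agent.Helper97.GP

open Filter

/-- the common end of both cases -/
theorem fin_step {n M q : ℕ} {x y a : ℝ} {A : ℕ} (hx : 9 + 2 * y ≤ x) (hA1 : x + 8 ≤ (A : ℝ))
    (hA2 : (A : ℝ) < x + 9) (hy : 0 ≤ y) (hodd : Odd M) (hM3 : 3 ≤ M) (hq : 1 ≤ q)
    (h1 : q * M + A ≤ n) (h2 : (n : ℝ) ≤ q * M + A + 2 * y)
    (hM : (M : ℝ) ≤ 2 * (n : ℝ) ^ (1 - a)) (hqa : (q : ℝ) ≤ (n : ℝ) ^ a) :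
    ∃ M q s : ℕ, Odd M ∧ 3 ≤ M ∧ Even s ∧ 2 ≤ s ∧ 1 ≤ q ∧ q * M + 2 * s ≤ n ∧
    n ≤ q * M + 2 * s + 3 ∧ (M : ℝ) ≤ 2 * (n : ℝ) ^ (1 - a) ∧ (q : ℝ) ≤ (n : ℝ) ^ a ∧
    x ≤ 2 * s ∧ (2 * s : ℝ) ≤ 2 * x := by
  have hA8 : 8 ≤ A := by
    have : (8 : ℝ) ≤ A := by linarith
    exact_mod_cast this
  obtain ⟨L, hL⟩ : ∃ L : ℕ, n = q * M + L := ⟨n - q * M, by omega⟩
  have hLA : A ≤ L := by omega
  have hL2 : (L : ℝ) ≤ A + 2 * y := by
    have : (n : ℝ) = q * M + L := by rw [hL]; push_cast; ring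
    linarith
  have hd1 : 4 * (L / 4) ≤ L := Nat.mul_div_le L 4
  have hd2 : L ≤ 4 * (L / 4) + 3 := by omega
  have hd1r : (4 : ℝ) * ((L / 4 : ℕ) : ℝ) ≤ L := by exact_mod_cast hd1
  have hd2r : (L : ℝ) ≤ 4 * ((L / 4 : ℕ) : ℝ) + 3 := by exact_mod_cast hd2
  have hLAr : (A : ℝ) ≤ L := by exact_mod_cast hLA
  refine ⟨M, q, 2 * (L / 4), hodd, hM3, even_two_mul _, by omega, hq, by omega, by omega, hM, hqa,
    ?_, ?_⟩
  · push_cast at *
    linarith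
  · push_cast at *
    linarith

theorem par_core : ∀ a e : ℝ, 0 < a → a < 1 → 0 < e → e < 1 / 2 → ∀ᶠ n : ℕ in atTop,
  ∃ M q s : ℕ, Odd M ∧ 3 ≤ M ∧ Even s ∧ 2 ≤ s ∧ 1 ≤ q ∧ q * M + 2 * s ≤ n ∧
    n ≤ q * M + 2 * s + 3 ∧ (M : ℝ) ≤ 2 * (n : ℝ) ^ (1 - a) ∧ (q : ℝ) ≤ (n : ℝ) ^ a ∧
    (n : ℝ) ^ (1 / 2 + e) ≤ 2 * s ∧ (2 * s : ℝ) ≤ 2 * (n : ℝ) ^ (1 / 2 + e) := by
  intro a e ha0 ha1 he0 he1
  have tt : ∀ c : ℝ, 0 < c → ∀ K : ℝ, ∀ᶠ n : ℕ in atTop, K ≤ (n : ℝ) ^ c := fun c hc K =>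
    ((tendsto_rpow_atTop hc).comp tendsto_natCast_atTop_atTop).eventually_ge_atTop K
  filter_upwards [tt e he0 3, tt (1 / 2) (by norm_num) 9, tt (1 / 2 - e) (by linarith) 3,
    tt (1 - a) (by linarith) 4, tt a ha0 1, eventually_ge_atTop 1] with n h1 h2 h3 h4 h5 h6
  have hn0 : (0 : ℝ) < n := by exact_mod_cast h6
  have hn1 : (1 : ℝ) ≤ n := by exact_mod_cast h6
  set x : ℝ := (n : ℝ) ^ (1 / 2 + e) with hxd
  set y : ℝ := (n : ℝ) ^ (1 / 2 : ℝ) with hyd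
  set u : ℝ := (n : ℝ) ^ a with hud
  set v : ℝ := (n : ℝ) ^ (1 - a) with hvd
  have hxy : x = y * (n : ℝ) ^ e := by
    rw [hxd, hyd, ← Real.rpow_add hn0]
  have hnx : (n : ℝ) = x * (n : ℝ) ^ (1 / 2 - e) := by
    rw [hxd, ← Real.rpow_add hn0]
    rw [show (1 / 2 + e + (1 / 2 - e) : ℝ) = 1 by ring, Real.rpow_one]
  have huv : u * v = n := by
    rw [hud, hvd, ← Real.rpow_add hn0]
    rw [show (a + (1 - a) : ℝ) = 1 by ring, Real.rpow_one]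
  have hy0 : 0 ≤ y := by linarith
  have hx : 9 + 2 * y ≤ x := by rw [hxy]; nlinarith
  have hx0 : 0 ≤ x := by linarith
  have hn3 : 3 * x ≤ n := by
    have : x * 3 ≤ x * (n : ℝ) ^ (1 / 2 - e) := mul_le_mul_of_nonneg_left h3 hx0
    linarith [hnx]
  have hceil : x ≤ (⌈x⌉₊ : ℝ) := Nat.le_ceil x
  have hceil2 : (⌈x⌉₊ : ℝ) < x + 1 := Nat.ceil_lt_add_one hx0
  obtain ⟨A, hAd⟩ : ∃ A : ℕ, A = ⌈x⌉₊ + 8 := ⟨_, rfl⟩
  have hA1 : x + 8 ≤ (A : ℝ) := by rw [hAd]; push_cast; linarith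
  have hA2 : (A : ℝ) < x + 9 := by rw [hAd]; push_cast; linarith
  have hAn : A ≤ n := by
    have : (A : ℝ) ≤ n := by linarith
    exact_mod_cast this
  obtain ⟨B, hB⟩ : ∃ B : ℕ, n = A + B := ⟨n - A, by omega⟩
  have hBr : (n : ℝ) = A + B := by rw [hB]; push_cast; ring
  rcases le_or_gt a (1 / 2) with hc | hc
  · -- case a ≤ 1/2
    have huy : u ≤ y := Real.rpow_le_rpow_of_exponent_le hn1 hc
    have hu0 : 0 ≤ u := by linarith
    have hq1 : (⌊u⌋₊ : ℝ) ≤ u := Nat.floor_le hu0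
    have hq2 : u < (⌊u⌋₊ : ℝ) + 1 := Nat.lt_floor_add_one u
    obtain ⟨q, hqd⟩ : ∃ q : ℕ, q = ⌊u⌋₊ := ⟨_, rfl⟩
    rw [← hqd] at hq1 hq2
    have hq : 1 ≤ q := by
      rw [hqd]
      exact Nat.le_floor (by exact_mod_cast h5)
    have hqr : (1 : ℝ) ≤ q := by exact_mod_cast hq
    have hdm : q * (B / q) + B % q = B := Nat.div_add_mod B q
    have hml : B % q < q := Nat.mod_lt B hq
    obtain ⟨m, hmd⟩ : ∃ m : ℕ, m = B / q := ⟨_, rfl⟩
    rw [← hmd] at hdm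
    -- m ≥ 4
    have hm4 : 4 ≤ m := by
      rw [hmd, Nat.le_div_iff_mul_le hq]
      have : (4 * q : ℝ) ≤ B := by linarith
      exact_mod_cast this
    obtain ⟨M, hodd, hMm, hmM⟩ : ∃ M : ℕ, Odd M ∧ M ≤ m ∧ m ≤ M + 1 := by
      rcases Nat.even_or_odd m with hm | hm
      · obtain ⟨c, hc'⟩ := hm
        exact ⟨m - 1, ⟨c - 1, by omega⟩, by omega, by omega⟩
      · exact ⟨m, hm, le_rfl, by omega⟩
    have hqM : q * M ≤ q * m := Nat.mul_le_mul_left q hMm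
    have hqm : q * m ≤ q * (M + 1) := Nat.mul_le_mul_left q hmM
    have e1 : q * (M + 1) = q * M + q := by ring
    refine fin_step (A := A) hx hA1 hA2 hy0 hodd (by omega) hq (by omega) ?_ ?_ ?_
    · have : B ≤ q * M + 2 * q := by omega
      have hr : (B : ℝ) ≤ q * M + 2 * q := by exact_mod_cast this
      linarith
    · -- M ≤ 2 v
      have hqMn : q * M ≤ n := by omega
      have hr : (q : ℝ) * M ≤ n := by exact_mod_cast hqMn
      have hu2 : u ≤ 2 * q := by linarith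
      have hM0 : (0 : ℝ) ≤ M := Nat.cast_nonneg M
      have hupos : 0 < u := by linarith
      have : u * M ≤ u * (2 * v) := by
        calc u * M ≤ (2 * q) * M := mul_le_mul_of_nonneg_right hu2 hM0
          _ = 2 * (q * M) := by ring
          _ ≤ 2 * n := by linarith
          _ = u * (2 * v) := by rw [← huv]; ring
      exact le_of_mul_le_mul_left this hupos
    · exact hq1
  · -- case a > 1/2
    have hvy : v ≤ y := Real.rpow_le_rpow_of_exponent_le hn1 (by linarith)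
    have hv0 : 0 ≤ v := by linarith
    have hc1 : v ≤ (⌈v⌉₊ : ℝ) := Nat.le_ceil v
    have hc2 : (⌈v⌉₊ : ℝ) < v + 1 := Nat.ceil_lt_add_one hv0
    obtain ⟨m, hmd⟩ : ∃ m : ℕ, m = ⌈v⌉₊ + 2 := ⟨_, rfl⟩
    have hm1 : v + 2 ≤ (m : ℝ) := by rw [hmd]; push_cast; linarith
    have hm2 : (m : ℝ) < v + 3 := by rw [hmd]; push_cast; linarith
    obtain ⟨M, hodd, hMm, hmM⟩ : ∃ M : ℕ, Odd M ∧ m ≤ M ∧ M ≤ m + 1 := by
      rcases Nat.even_or_odd m with hm | hm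
      · exact ⟨m + 1, hm.add_one, by omega, by omega⟩
      · exact ⟨m, hm, le_rfl, by omega⟩
    have hMmr : (m : ℝ) ≤ M := by exact_mod_cast hMm
    have hmMr : (M : ℝ) ≤ m + 1 := by exact_mod_cast hmM
    have hM3 : 3 ≤ M := by
      have : (3 : ℝ) ≤ M := by linarith
      exact_mod_cast this
    have hM0 : 0 < M := by omega
    have hdm : M * (B / M) + B % M = B := Nat.div_add_mod B M
    have hml : B % M < M := Nat.mod_lt B hM0
    obtain ⟨q, hqd⟩ : ∃ q : ℕ, q = B / M := ⟨_, rfl⟩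
    rw [← hqd] at hdm
    have hcomm : q * M = M * q := Nat.mul_comm q M
    refine fin_step (A := A) (q := q) hx hA1 hA2 hy0 hodd hM3 ?_ (by omega) ?_ ?_ ?_
    · rw [hqd, Nat.le_div_iff_mul_le hM0]
      have : (M : ℝ) ≤ B := by linarith
      have : M ≤ B := by exact_mod_cast this
      omega
    · have : B ≤ q * M + M := by omega
      have hr : (B : ℝ) ≤ q * M + M := by exact_mod_cast this
      linarith
    · linarith
    · -- q ≤ u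
      have hqMn : q * M ≤ n := by omega
      have hr : (q : ℝ) * M ≤ n := by exact_mod_cast hqMn
      have hq0 : (0 : ℝ) ≤ q := Nat.cast_nonneg q
      have hvpos : 0 < v := by linarith
      have : (q : ℝ) * v ≤ u * v := by
        calc (q : ℝ) * v ≤ q * M := mul_le_mul_of_nonneg_left (by linarith) hq0
          _ ≤ n := hr
          _ = u * v := huv.symm
      exact le_of_mul_le_mul_right this hvpos

end Pool.Agent.Helper97.GP
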