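import Pool.Agent.Helper6.GP.Goals
import Pool.Agent.Helper97.GP.PARcore

/-! # GP-PAR: the parameters of the class. -/

namespace Pool.Agent.Helper97.GP

theorem thm : Pool.Agent.Helper6.GP.S_PAR := par_core

end Pool.Agent.Helper97.GP
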